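import Mathlib

set_option autoImplicit false

namespace Pool.Agent.Results.MP_3c8d56_co.Counterexample

/-- The clique graph: vertices are the inclusion-maximal cliques, two distinct ones being
adjacent when they share a vertex. -/
def cliqueGraph {V : Type} (G : SimpleGraph V) :
    SimpleGraph {s : Set V // Maximal G.IsClique s} where
  Adj s t := s ≠ t ∧ (s.1 ∩ t.1).Nonempty
  symm := ⟨fun _ _ h => ⟨h.1.symm, by rw [Set.inter_comm]; exact h.2⟩⟩
  loopless := ⟨fun _ h => h.1 rfl⟩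

/-- The closed neighbourhood. -/
def closedNbhd {V : Type} (G : SimpleGraph V) (v : V) : Set V := {w | w = v ∨ G.Adj v w}

/-- A triangular covering map: a homomorphism between connected graphs whose restriction to each
closed neighbourhood is an isomorphism onto the closed neighbourhood of the image. -/
def IsTriangularCover {W V : Type} {H : SimpleGraph W} {G : SimpleGraph V} (p : H →g G) : Prop :=
  H.Connected ∧ G.Connected ∧
    ∀ v : W, Set.BijOn p (closedNbhd H v) (closedNbhd G (p v)) ∧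
      ∀ x ∈ closedNbhd H v, ∀ y ∈ closedNbhd H v, (H.Adj x y ↔ G.Adj (p x) (p y))

lemma iso_of {V I : Type} (G : SimpleGraph V) (H : SimpleGraph I) (c : I → V → Prop) (i0 : I)
    (h1 : ∀ i u v, c i u → c i v → u ≠ v → G.Adj u v)
    (h2 : ∀ u, ∃ i, c i u)
    (h3 : ∀ u v, G.Adj u v → ∃ i, c i u ∧ c i v ∧ ∀ w, G.Adj u w → G.Adj v w → c i w)
    (h4 : ∀ i j, (∀ v, c i v → c j v) → i = j)
    (h5 : ∀ i j, H.Adj i j ↔ i ≠ j ∧ ∃ v, c i v ∧ c j v) :
    Nonempty (cliqueGraph G ≃g H) := by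
  have hcl : ∀ i, G.IsClique {v | c i v} := fun i u hu v hv huv => h1 i u v hu hv huv
  have hcov : ∀ s : Set V, G.IsClique s → ∃ i, s ⊆ {v | c i v} := by
    intro s hs
    by_cases h : ∃ u ∈ s, ∃ v ∈ s, u ≠ v
    · obtain ⟨u, hu, v, hv, huv⟩ := h
      obtain ⟨i, hi1, hi2, hi3⟩ := h3 u v (hs hu hv huv)
      refine ⟨i, fun w hw => ?_⟩
      by_cases e1 : u = w
      · exact e1 ▸ hi1
      by_cases e2 : v = w
      · exact e2 ▸ hi2
      exact hi3 w (hs hu hw e1) (hs hv hw e2)
    · by_cases hne : ∃ u, u ∈ s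
      · obtain ⟨u, hu⟩ := hne
        obtain ⟨i, hi⟩ := h2 u
        refine ⟨i, fun w hw => ?_⟩
        by_cases e1 : u = w
        · exact e1 ▸ hi
        · exact absurd ⟨u, hu, w, hw, e1⟩ h
      · exact ⟨i0, fun w hw => absurd ⟨w, hw⟩ hne⟩
  have hmax : ∀ i, Maximal G.IsClique {v | c i v} := by
    intro i
    refine ⟨hcl i, fun t ht hit => ?_⟩
    obtain ⟨j, hj⟩ := hcov t ht
    have : i = j := h4 i j fun v hv => hj (hit hv)
    subst this
    exact hj
  let f : I → {s : Set V // Maximal G.IsClique s} := fun i => ⟨{v | c i v}, hmax i⟩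
  have finj : Function.Injective f := by
    intro i j hij
    have e : ({v | c i v} : Set V) = {v | c j v} := congrArg Subtype.val hij
    refine h4 i j fun v hv => ?_
    have : v ∈ ({v | c j v} : Set V) := e ▸ hv
    exact this
  have fsurj : Function.Surjective f := by
    rintro ⟨s, hs⟩
    obtain ⟨i, hi⟩ := hcov s hs.1
    exact ⟨i, Subtype.ext (Set.Subset.antisymm (hs.2 (hcl i) hi) hi)⟩
  refine ⟨SimpleGraph.Iso.symm ⟨Equiv.ofBijective f ⟨finj, fsurj⟩, ?_⟩⟩
  intro i j
  rw [h5]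
  constructor
  · rintro ⟨hne, v, hv1, hv2⟩
    exact ⟨fun e => hne (by rw [e]), v, hv1, hv2⟩
  · rintro ⟨hne, v, hv1, hv2⟩
    exact ⟨fun e => hne (finj e), v, hv1, hv2⟩

def eG : List (ℕ × ℕ) :=
  [(0,1),(1,2),(2,3),(0,3),(0,4),(0,7),(4,7),(4,5),(5,6),(6,7)]

def eH : List (ℕ × ℕ) :=
  [(0,1),(1,2),(2,3),(3,8),(0,4),(0,7),(4,7),(4,5),(5,6),(6,7),
   (8,9),(9,10),(10,11),(0,11),(8,12),(8,15),(12,15),(12,13),(13,14),(14,15)]

def adjB (e : List (ℕ × ℕ)) (u v : ℕ) : Bool :=
  e.any fun x => (x.1 == u && x.2 == v) || (x.1 == v && x.2 == u)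

def G : SimpleGraph (Fin 8) where
  Adj u v := adjB eG u.1 v.1 = true
  symm := ⟨by decide +kernel⟩
  loopless := ⟨by decide +kernel⟩

def H : SimpleGraph (Fin 16) where
  Adj u v := adjB eH u.1 v.1 = true
  symm := ⟨by decide +kernel⟩
  loopless := ⟨by decide +kernel⟩

instance : DecidableRel G.Adj := fun u v => inferInstanceAs (Decidable (adjB eG u.1 v.1 = true))
instance : DecidableRel H.Adj := fun u v => inferInstanceAs (Decidable (adjB eH u.1 v.1 = true))

def cG (i v : Fin 8) : Bool :=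
  (([[0,4,7],[4,5],[5,6],[6,7],[0,1],[1,2],[2,3],[3,0]] : List (List ℕ)).getD i.1 []).contains v.1

def cH (i v : Fin 16) : Bool :=
  (([[0,4,7],[4,5],[5,6],[6,7],[0,1],[1,2],[2,3],[3,8],
    [8,12,15],[12,13],[13,14],[14,15],[8,9],[9,10],[10,11],[11,0]] :
      List (List ℕ)).getD i.1 []).contains v.1

def K : SimpleGraph (Fin 16) where
  Adj i j := i ≠ j ∧ ∃ v, cH i v = true ∧ cH j v = true
  symm := ⟨fun _ _ h => ⟨h.1.symm, h.2.imp fun _ hv => ⟨hv.2, hv.1⟩⟩⟩
  loopless := ⟨fun _ h => h.1 rfl⟩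

instance : DecidableRel K.Adj := fun i j =>
  inferInstanceAs (Decidable (i ≠ j ∧ ∃ v, cH i v = true ∧ cH j v = true))

def pf (v : Fin 16) : Fin 8 := ⟨v.1 % 8, Nat.mod_lt _ (by norm_num)⟩

def p : H →g G := ⟨pf, by
  have : ∀ a b : Fin 16, H.Adj a b → G.Adj (pf a) (pf b) := by decide +kernel
  exact fun {a b} h => this a b h⟩

def Q (v a r : Fin 16) : Prop :=
  ∀ s, H.Adj v s → s ≠ a → s ≠ r → ∀ t, H.Adj v t → t ≠ a → t ≠ r → s = t

instance (v a r : Fin 16) : Decidable (Q v a r) := by unfold Q; infer_instance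

def R (v a b : Fin 16) : Prop := ∀ r, H.Adj b r → H.Adj r v → a ≠ r → Q v a r

instance (v a b : Fin 16) : Decidable (R v a b) := by unfold R; infer_instance

lemma noP : ∀ v a : Fin 16, H.Adj v a → ∀ b, H.Adj a b → v ≠ b → R v a b := by
  decide +kernel

lemma kH : Nonempty (cliqueGraph H ≃g K) :=
  iso_of H K (fun i v => cH i v = true) 0 (by decide +kernel) (by decide +kernel)
    (by decide +kernel) (by decide +kernel) (fun _ _ => Iff.rfl)

lemma kG : Nonempty (cliqueGraph G ≃g G) :=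
  iso_of G G (fun i v => cG i v = true) 0 (by decide +kernel) (by decide +kernel)
    (by decide +kernel) (by decide +kernel) (by decide +kernel)

lemma conn {n : ℕ} (X : SimpleGraph (Fin (n + 1)))
    (h : ∀ v : Fin (n + 1), v ≠ 0 → ∃ u, u < v ∧ X.Adj u v) : X.Connected := by
  have key : ∀ v : Fin (n + 1), X.Reachable 0 v := by
    intro v
    induction v using WellFoundedLT.induction with
    | ind v ih =>
      by_cases e : v = 0
      · subst e
        exact SimpleGraph.Reachable.refl _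
      · obtain ⟨u, hu, ha⟩ := h v e
        exact (ih u hu).trans ha.reachable
  exact ⟨fun u v => (key u).symm.trans (key v)⟩

theorem result :
    ∃ (H : SimpleGraph (Fin 16)) (G : SimpleGraph (Fin 8)) (p : H →g G),
      IsTriangularCover p ∧ Nonempty (cliqueGraph G ≃g G) ∧
        ¬ Nonempty (cliqueGraph H ≃g H) := by
  refine ⟨H, G, p, ⟨conn H (by decide +kernel), conn G (by decide +kernel),
    fun v => ⟨⟨?_, ?_, ?_⟩, ?_⟩⟩, kG, ?_⟩
  · have : ∀ v x : Fin 16, (x = v ∨ H.Adj v x) → (pf x = pf v ∨ G.Adj (pf v) (pf x)) := by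
      decide +kernel
    exact fun x hx => this v x hx
  · have : ∀ v x : Fin 16, (x = v ∨ H.Adj v x) → ∀ y, (y = v ∨ H.Adj v y) → pf x = pf y →
        x = y := by decide +kernel
    exact fun x hx y hy e => this v x hx y hy e
  · have : ∀ (v : Fin 16) (y : Fin 8), (y = pf v ∨ G.Adj (pf v) y) →
        ∃ x, (x = v ∨ H.Adj v x) ∧ pf x = y := by decide +kernel
    exact fun y hy => this v y hy
  · have : ∀ v x : Fin 16, (x = v ∨ H.Adj v x) → ∀ y, (y = v ∨ H.Adj v y) →
        (H.Adj x y ↔ G.Adj (pf x) (pf y)) := by decide +kernel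
    exact fun x hx y hy => this v x hx y hy
  · rintro ⟨e⟩
    obtain ⟨k⟩ := kH
    let f : K ≃g H := k.symm.trans e
    have a : ∀ i j, K.Adj i j → H.Adj (f i) (f j) := fun i j h => f.map_rel_iff.2 h
    have n : ∀ i j : Fin 16, i ≠ j → f i ≠ f j := fun i j h e => h (f.injective e)
    exact n 4 15 (by decide) (noP (f 0) (f 1) (a _ _ (by decide +kernel)) (f 2)
      (a _ _ (by decide +kernel)) (n _ _ (by decide)) (f 3) (a _ _ (by decide +kernel))
      (a _ _ (by decide +kernel)) (n _ _ (by decide)) (f 4) (a _ _ (by decide +kernel))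
      (n _ _ (by decide)) (n _ _ (by decide)) (f 15) (a _ _ (by decide +kernel))
      (n _ _ (by decide)) (n _ _ (by decide)))

end Pool.Agent.Results.MP_3c8d56_co.Counterexample
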